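import Mathlib

namespace Pool.Agent.H.MP_1000ca_al

open Subgroup
open scoped commutatorElement

section bil
variable {Q : Type*} [Group Q]

theorem comm_mul_right {a : Q} (h : ∀ y z : Q, Commute ⁅a, y⁆ z) (y z : Q) :
    ⁅a, y * z⁆ = ⁅a, y⁆ * ⁅a, z⁆ := by
  have : ⁅a, y * z⁆ = ⁅a, y⁆ * (y * ⁅a, z⁆ * y⁻¹) := by
    simp only [commutatorElement_def]; group
  rw [this, ← (h z y).eq, mul_inv_cancel_right]

/-- the hom `y ↦ ⁅a, y⁆` -/
def commHom (a : Q) (h : ∀ y z : Q, Commute ⁅a, y⁆ z) : Q →* Q :=
  MonoidHom.mk' (fun y => ⁅a, y⁆) (comm_mul_right h)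

theorem comm_pow_right {a : Q} (h : ∀ y z : Q, Commute ⁅a, y⁆ z) (y : Q) (m : ℕ) :
    ⁅a, y ^ m⁆ = ⁅a, y⁆ ^ m := (commHom a h).map_pow y m

theorem comm_commutator {a : Q} (h : ∀ y z : Q, Commute ⁅a, y⁆ z) {c : Q}
    (hc : c ∈ _root_.commutator Q) : ⁅a, c⁆ = 1 := by
  have : _root_.commutator Q ≤ (commHom a h).ker := by
    rw [commutator_def, commutator_le]
    intro y _ z _
    rw [MonoidHom.mem_ker, map_commutatorElement, commutatorElement_eq_one_iff_commute]
    exact h y _
  exact this hc

theorem comm_pow_left {a : Q} (h : ∀ y z : Q, Commute ⁅a, y⁆ z) (y : Q) (m : ℕ) :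
    ⁅a ^ m, y⁆ = ⁅a, y⁆ ^ m := by
  induction m with
  | zero => simp
  | succ m ih =>
    have : ⁅a ^ (m + 1), y⁆ = a * ⁅a ^ m, y⁆ * a⁻¹ * ⁅a, y⁆ := by
      simp only [commutatorElement_def]; group
    rw [this, ih, ← ((h y a).pow_left m).eq, mul_inv_cancel_right, pow_succ]

end bil

theorem powA {P : Type*} [Group P] (φ : P →* P) (s : ℕ)
    (h : ∀ g, (g ^ s)⁻¹ * φ g ∈ (⊤ : Subgroup P).lowerCentralSeries 1) :
    ∀ k, ∀ u ∈ (⊤ : Subgroup P).lowerCentralSeries k,
      (u ^ (s ^ (k + 1)))⁻¹ * φ u ∈ (⊤ : Subgroup P).lowerCentralSeries (k + 1) := by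
  intro k
  induction k with
  | zero => intro u _; simpa using h u
  | succ k ih =>
    set N := (⊤ : Subgroup P).lowerCentralSeries (k + 1 + 1) with hN
    let π := QuotientGroup.mk' N
    have hc : ∀ u ∈ (⊤ : Subgroup P).lowerCentralSeries (k + 1), ∀ z : P ⧸ N,
        Commute (π u) z := by
      intro u hu z
      obtain ⟨z, rfl⟩ := QuotientGroup.mk'_surjective N z
      rw [← commutatorElement_eq_one_iff_commute, ← map_commutatorElement]
      exact (QuotientGroup.eq_one_iff _).2 (commutator_mem_commutator hu (mem_top _))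
    suffices H : ∀ u ∈ (⊤ : Subgroup P).lowerCentralSeries (k + 1),
        π (φ u) = π u ^ (s ^ (k + 1 + 1)) by
      intro u hu
      have := H u hu
      rw [← map_pow] at this
      exact QuotientGroup.eq.1 this.symm
    intro u hu
    rw [Subgroup.lowerCentralSeries_succ, Subgroup.commutator_def] at hu
    induction hu using closure_induction with
    | mem x hx =>
      obtain ⟨a, ha, g, -, rfl⟩ := hx
      have h1 : ∀ y z : P ⧸ N, Commute ⁅π a, y⁆ z := by
        intro y z
        obtain ⟨y, rfl⟩ := QuotientGroup.mk'_surjective N y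
        rw [← map_commutatorElement]
        exact hc _ (commutator_mem_commutator ha (mem_top _)) z
      have h2 : ∀ y z : P ⧸ N, Commute ⁅π a ^ (s ^ (k + 1)), y⁆ z := by
        intro y z
        rw [comm_pow_left h1]
        exact (h1 y z).pow_left _
      have e1 : φ a = a ^ (s ^ (k + 1)) * ((a ^ (s ^ (k + 1)))⁻¹ * φ a) := by group
      have e2 : φ g = g ^ s * ((g ^ s)⁻¹ * φ g) := by group
      have h3 := hc _ (ih a ha)
      have h4 : π ((g ^ s)⁻¹ * φ g) ∈ _root_.commutator (P ⧸ N) := by
        have := mem_map_of_mem π (h g)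
        rw [map_lowerCentralSeries] at this
        exact lowerCentralSeries_mono 1 le_top this
      rw [map_commutatorElement, map_commutatorElement, map_commutatorElement, e1, e2]
      generalize (a ^ (s ^ (k + 1)))⁻¹ * φ a = a' at h3
      generalize (g ^ s)⁻¹ * φ g = g' at h4
      rw [map_mul, map_mul, map_pow, map_pow]
      have h5 : ∀ b y : P ⧸ N, ⁅b * π a', y⁆ = ⁅b, y⁆ := by
        intro b y
        have : ⁅b * π a', y⁆ = b * (π a' * y * (π a')⁻¹) * b⁻¹ * y⁻¹ := by
          simp only [commutatorElement_def]; group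
        rw [this, (h3 y).eq, mul_inv_cancel_right, commutatorElement_def]
      rw [h5, comm_mul_right h2, comm_commutator h2 h4, mul_one, comm_pow_right h2,
        comm_pow_left h1, ← pow_mul, ← pow_succ]
    | one => simp
    | mul x y hx hy ihx ihy =>
      rw [map_mul, map_mul, map_mul, ihx, ihy, (hc x hx (π y)).mul_pow]
    | inv x hx ihx => rw [map_inv, map_inv, map_inv, ihx, inv_pow]

theorem powB {M : Type*} [Group M] (S : Set M) (φ : M →* M) (s : ℕ)
    (h1 : ∀ g ∈ S, φ g ∈ closure S)
    (h2 : ∀ g ∈ S, (g ^ s)⁻¹ * φ g ∈ (closure S).lowerCentralSeries 1) :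
    ∀ k, ∀ u ∈ (closure S).lowerCentralSeries k,
      (u ^ (s ^ (k + 1)))⁻¹ * φ u ∈ (closure S).lowerCentralSeries (k + 1) := by
  have hφ : ∀ g ∈ closure S, φ g ∈ closure S := by
    intro g hg
    exact (show closure S ≤ (closure S).comap φ from (closure_le _).2 h1) hg
  let ψ : closure S →* closure S := (φ.comp (closure S).subtype).codRestrict _ fun g => hφ g g.2
  have key : ∀ g : closure S, (g ^ s)⁻¹ * ψ g ∈ (⊤ : Subgroup (closure S)).lowerCentralSeries 1 := by
    have e : (Abelianization.of : closure S →* _).comp ψ =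
        (powMonoidHom s).comp Abelianization.of := by
      refine MonoidHom.eq_of_eqOn_dense (closure_preimage_eq_top S) fun g hg => ?_
      have := h2 g hg
      rw [← top_subtype_lowerCentralSeries] at this
      obtain ⟨c, hc, e⟩ := this
      have hc' : c = (g ^ s)⁻¹ * ψ g := Subtype.ext e
      have h3 : Abelianization.of c = 1 := by
        rw [← MonoidHom.mem_ker, Abelianization.ker_of]; exact hc
      rw [hc', map_mul, map_inv, inv_mul_eq_one] at h3
      simp [← h3]
    intro g
    have := DFunLike.congr_fun e g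
    simp only [MonoidHom.comp_apply, powMonoidHom_apply] at this
    rw [top_lowerCentralSeries_one, ← Abelianization.ker_of, MonoidHom.mem_ker, map_mul, map_inv,
      map_pow, this, inv_mul_cancel]
  intro k u hu
  rw [← top_subtype_lowerCentralSeries] at hu ⊢
  obtain ⟨v, hv, rfl⟩ := hu
  exact ⟨_, powA ψ s key k v hv, rfl⟩

theorem lcs_pi {ι G : Type*} [Group G] {n : ℕ} (h : (⊤ : Subgroup G).lowerCentralSeries n = ⊥)
    (K : Subgroup (ι → G)) : ∀ u ∈ K.lowerCentralSeries n, u = 1 := by
  intro u hu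
  funext i
  have := mem_map_of_mem (Pi.evalMonoidHom (fun _ : ι => G) i) hu
  rw [map_lowerCentralSeries] at this
  have h2 := lowerCentralSeries_mono n le_top this
  simp only at h2
  rw [h, mem_bot] at h2
  exact h2

/-- iterated multiplicative differences -/
def D {G H : Type*} [Group G] [Group H] (hs : List G) (f : G → H) : G → H :=
  hs.foldr (fun h g x => (g x)⁻¹ * g (x * h)) f

theorem D_map {G H H' : Type*} [Group G] [Group H] [Group H'] (ψ : H →* H') (hs : List G)
    (f : G → H) (x : G) : D hs (fun x => ψ (f x)) x = ψ (D hs f x) := by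
  induction hs generalizing x with
  | nil => rfl
  | cons h hs ih =>
    simp only [D, List.foldr_cons] at ih ⊢
    rw [ih, ih, map_mul, map_inv]

/-- translation -/
def T {G : Type*} (H : Type*) [Group G] [Group H] (h : G) : (G → H) →* (G → H) :=
  MonoidHom.mk' (fun f x => f (x * h)) fun _ _ => rfl

theorem D_cons {G H : Type*} [Group G] [Group H] (h : G) (hs : List G) (f : G → H) :
    D (h :: hs) f = (D hs f)⁻¹ * T H h (D hs f) := rfl

theorem D_pow {G : Type*} [Group G] {n : ℕ} (h : (⊤ : Subgroup G).lowerCentralSeries n = ⊥)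
    (t : ℕ) (hs : List G) (hl : hs.length = n + 1) : D hs (fun x : G => x ^ t) = 1 := by
  let S : Set (G → G) := {f | ∃ (m : ℕ) (a : G), f = fun x => (x ^ m)⁻¹ * a * x ^ m}
  have h0 : ∀ (g : G) (m : ℕ), (fun x => (x ^ m)⁻¹ * (x * g) ^ m) ∈ closure S := by
    intro g m
    induction m with
    | zero =>
      have : (fun x => (x ^ 0)⁻¹ * (x * g) ^ 0) = (1 : G → G) := by funext x; simp
      rw [this]
      exact one_mem _
    | succ m ih =>
      have : (fun x => (x ^ (m + 1))⁻¹ * (x * g) ^ (m + 1)) =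
          (fun x => (x ^ m)⁻¹ * g * x ^ m) * fun x => (x ^ m)⁻¹ * (x * g) ^ m := by
        funext x
        simp only [Pi.mul_apply]
        rw [pow_succ', pow_succ']
        generalize (x * g) ^ m = w
        generalize x ^ m = v
        group
      rw [this]
      exact mul_mem (subset_closure ⟨m, g, rfl⟩) ih
  have h1 : ∀ (g : G), ∀ f ∈ S, ∃ k ∈ closure S, T G g f = k⁻¹ * f * k := by
    rintro g _ ⟨m, a, rfl⟩
    refine ⟨_, h0 g m, ?_⟩
    funext x
    simp only [T, MonoidHom.mk'_apply, Pi.mul_apply, Pi.inv_apply]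
    group
  have h2 : ∀ g : G, ∀ k, ∀ u ∈ (closure S).lowerCentralSeries k,
      u⁻¹ * T G g u ∈ (closure S).lowerCentralSeries (k + 1) := by
    intro g k u hu
    have := powB S (T G g) 1 (fun f hf => by
      obtain ⟨k, hk, e⟩ := h1 g f hf
      rw [e]
      exact mul_mem (mul_mem (inv_mem hk) (subset_closure hf)) hk) (fun f hf => by
      obtain ⟨k, hk, e⟩ := h1 g f hf
      have : (f ^ 1)⁻¹ * T G g f = ⁅f⁻¹, k⁻¹⁆ := by
        rw [e, commutatorElement_def]; group
      rw [this]
      exact commutator_mem_commutator (inv_mem (subset_closure hf)) (inv_mem hk)) k u hu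
    simpa using this
  have h3 : ∀ (g : G) (l : List G), D (l ++ [g]) (fun x : G => x ^ t) ∈
      (closure S).lowerCentralSeries l.length := by
    intro g l
    induction l with
    | nil => exact h0 g t
    | cons a l ih => exact h2 a _ _ ih
  obtain rfl | ⟨l, g, rfl⟩ := List.eq_nil_or_concat' hs
  · simp at hl
  · have : l.length = n := by simpa using hl
    exact lcs_pi h _ _ (this ▸ h3 g l)

theorem poly {G : Type} [Group G] {p n : ℕ} (hp : p.Prime) (hpn : 2 ^ n < p)
    (h : (⊤ : Subgroup G).lowerCentralSeries n = ⊥) (he : ∀ x : G, x ^ (p ^ n) = 1) :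
    ∃ (A : Type) (_ : CommGroup A) (θ : G → A), θ 1 = 1 ∧ (∀ x, θ x = 1 → x = 1) ∧
      (∀ x, θ x ^ (p ^ n) = 1) ∧ ∀ hs : List G, hs.length = n + 1 → D hs θ = 1 := by
  let g : G → ℕ → G := fun x t => x ^ t
  let S : Set (ℕ → G) := Set.range g
  let σ : (ℕ → G) →* (ℕ → G) := MonoidHom.mk' (fun f t => f (t * 2)) fun _ _ => rfl
  have hσ : ∀ x, σ (g x) = g x ^ 2 := by
    intro x; funext t
    simp [σ, g, pow_mul]
  have hg : ∀ x, g x ^ (p ^ n) = 1 := by
    intro x; funext t
    simp only [g, Pi.pow_apply, Pi.one_apply]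
    exact he _
  have h1 := powB S σ 2 (by
    rintro _ ⟨x, rfl⟩
    rw [hσ]; exact pow_mem (Subgroup.subset_closure (Set.mem_range_self x)) 2) (by
    rintro _ ⟨x, rfl⟩
    rw [hσ, inv_mul_cancel]; exact one_mem _)
  have h2 : ∀ x, g x ∈ (closure S).lowerCentralSeries 1 → ∀ k, k < n →
      g x ∈ (closure S).lowerCentralSeries (k + 1) := by
    intro x hx k
    induction k with
    | zero => exact fun _ => hx
    | succ k ih =>
      intro hk
      have h3 := h1 _ _ (ih (by omega))
      have h4 : 2 ^ (k + 1 + 1) ≤ 2 ^ n := Nat.pow_le_pow_right (by norm_num) (by omega)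
      have h5 : 4 ≤ 2 ^ (k + 1 + 1) := by
        calc 4 = 2 ^ 2 := by norm_num
          _ ≤ _ := Nat.pow_le_pow_right (by norm_num) (by omega)
      obtain ⟨m, hm⟩ : ∃ m, 2 ^ (k + 1 + 1) = m + 2 := ⟨2 ^ (k + 1 + 1) - 2, by omega⟩
      rw [hσ, hm, pow_add, mul_inv_rev, (Commute.pow_pow_self (g x) 2 m).inv_inv.eq,
        inv_mul_cancel_right, inv_mem_iff] at h3
      have hco : Nat.Coprime m (p ^ n) :=
        Nat.Coprime.pow_right _ (Nat.coprime_of_lt_prime (by omega) (by omega) hp).symm
      have hco' : Nat.Coprime m (orderOf (g x)) :=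
        Nat.Coprime.coprime_dvd_right (orderOf_dvd_of_pow_eq_one (hg x)) hco
      obtain ⟨r, hr⟩ := exists_pow_eq_self_of_coprime hco'
      rw [← hr]
      exact pow_mem h3 r
  let Θ : G → closure S := fun x => ⟨g x, subset_closure ⟨x, rfl⟩⟩
  refine ⟨Abelianization (closure S), inferInstance, fun x => Abelianization.of (Θ x), ?_, ?_, ?_,
    ?_⟩
  · have : Θ 1 = 1 := by
      apply Subtype.ext; funext t; simp [Θ, g]
    simp [this]
  · intro x hx
    rw [← MonoidHom.mem_ker, Abelianization.ker_of, ← top_lowerCentralSeries_one] at hx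
    have h3 : g x ∈ (closure S).lowerCentralSeries 1 := by
      rw [← top_subtype_lowerCentralSeries]; exact ⟨_, hx, rfl⟩
    have h4 : g x ∈ (closure S).lowerCentralSeries n := by
      rcases n with - | n
      · exact subset_closure ⟨x, rfl⟩
      · exact h2 x h3 n (by omega)
    simpa [g] using congrFun (lcs_pi h _ _ h4) 1
  · intro x
    rw [← map_pow]
    have : Θ x ^ (p ^ n) = 1 := Subtype.ext (hg x)
    rw [this, map_one]
  · intro hs hl
    funext x
    rw [D_map]
    have : D hs Θ x = 1 := by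
      apply Subtype.ext
      funext t
      have e := D_map ((Pi.evalMonoidHom (fun _ : ℕ => G) t).comp (closure S).subtype) hs Θ x
      have e2 := congrFun (D_pow h t hs hl) x
      exact e.symm.trans e2
    rw [this, map_one]
    rfl

end Pool.Agent.H.MP_1000ca_al
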